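import Pool.Agent.KS6_70.Theon.Code
import Pool.Agent.KS6_70.Theon.Meas

/-! A single universal sentence with a strong theon that agrees almost everywhere with no
universally measurable strong theon. -/

namespace Pool.Agent.Results.MP_351e8f_co.OneSymbol

open Set Function Filter MeasureTheory FirstOrder FirstOrder.Language
open Pool.Agent.KS6_70.Theon
open scoped symmDiff

/-- the relational language with predicate symbols `S` and arities `k` -/
def lang {S : Type} (k : S → ℕ) : Language := ⟨fun _ => Empty, fun n => {P : S // k P = n}⟩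

/-- the cube `[0,1]^{r(V)}`, indexed by the non-empty subsets of `V` -/
abbrev E (V : Type) : Type := {A : Finset V // A.Nonempty} → unitInterval

/-- the map `α^*` -/
def pull {V : Type} {n : ℕ} (α : Fin n ↪ V) (x : E V) : E (Fin n) :=
  fun A => x ⟨A.1.map α, A.2.map⟩

variable {S : Type} {k : S → ℕ} {V : Type}

/-- `P^M(v)` -/
def holds (M : (lang k).Structure V) (P : S) (v : Fin (k P) → V) : Prop :=
  @Structure.RelMap (lang k) V M (k P) ⟨P, rfl⟩ v

/-- predicates are false on tuples with a repeated entry -/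
def Canon (M : (lang k).Structure V) : Prop := ∀ P v, ¬ Injective v → ¬ holds M P v

/-- `M` is a model of `T` -/
def Models (T : (lang k).Theory) (M : (lang k).Structure V) : Prop := @Theory.Model _ V M T

/-- `T_ind(M, N)` -/
def Tind (N : ∀ P, Set (E (Fin (k P)))) (M : (lang k).Structure V) : Set (E V) :=
  {x | ∀ (P : S) (α : Fin (k P) ↪ V), pull α x ∈ N P ↔ holds M P α}

/-- the diagonal -/
def Diag (V : Type) : Set (E V) :=
  {x | ∃ i j : V, i ≠ j ∧
    x ⟨{i}, Finset.singleton_nonempty i⟩ = x ⟨{j}, Finset.singleton_nonempty j⟩}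

/-- strong `T`-on: Lebesgue measurable peons, and finite canonical non-models occur only on the
diagonal -/
def Strong (T : (lang k).Theory) (N : ∀ P, Set (E (Fin (k P)))) : Prop :=
  (∀ P, NullMeasurableSet (N P) volume) ∧
    ∀ (V : Type) [Finite V] (M : (lang k).Structure V), Canon M → ¬ Models T M → Tind N M ⊆ Diag V

/-- universally measurable: measurable for the completion of every finite Borel measure -/
def UM {n : ℕ} (A : Set (E (Fin n))) : Prop :=
  ∀ m : Measure (E (Fin n)), IsFiniteMeasure m → NullMeasurableSet A m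

/-! ### The sentence -/

theorem univ_alls {L : Language} {n : ℕ} {φ : L.BoundedFormula Empty n} (h : φ.IsUniversal) :
    φ.alls.IsUniversal := by
  induction n with
  | zero => exact h
  | succ n ih => exact ih h.all

theorem qf_iInf {L : Language} {n : ℕ} {β : Type} [Finite β] {f : β → L.BoundedFormula Empty n}
    (h : ∀ b, (f b).IsQF) : (BoundedFormula.iInf f).IsQF := by
  unfold BoundedFormula.iInf
  dsimp only
  generalize (@Finset.univ β (Fintype.ofFinite β)).toList = l
  induction l with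
  | nil => exact BoundedFormula.IsQF.top
  | cons a l ih => exact (h a).inf ih

theorem qf_iSup {L : Language} {n : ℕ} {β : Type} [Finite β] {f : β → L.BoundedFormula Empty n}
    (h : ∀ b, (f b).IsQF) : (BoundedFormula.iSup f).IsQF := by
  unfold BoundedFormula.iSup
  dsimp only
  generalize (@Finset.univ β (Fintype.ofFinite β)).toList = l
  induction l with
  | nil => exact BoundedFormula.isQF_bot
  | cons a l ih => exact (h a).sup ih

/-- atomic formula -/
def atom {n : ℕ} (P : S) (α : Fin (k P) → Fin n) : (lang k).BoundedFormula Empty n :=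
  Relations.boundedFormula (⟨P, rfl⟩ : (lang k).Relations (k P)) fun i => Term.var (Sum.inr (α i))

/-- equality of two variables -/
def eqv {n : ℕ} (i j : Fin n) : (lang k).BoundedFormula Empty n :=
  Term.bdEqual (Term.var (Sum.inr i)) (Term.var (Sum.inr j))

theorem qf_atom {n : ℕ} (P : S) (α : Fin (k P) → Fin n) : (atom P α).IsQF := Relations.isQF _ _

theorem qf_eqv {n : ℕ} (i j : Fin n) : (eqv (k := k) i j).IsQF :=
  (BoundedFormula.IsAtomic.equal _ _).isQF

theorem real_atom [M : (lang k).Structure V] {n : ℕ} (P : S) (α : Fin (k P) → Fin n)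
    (v : Fin n → V) : (atom P α).Realize default v ↔ holds M P (v ∘ α) := by
  exact BoundedFormula.realize_rel

theorem real_eqv [(lang k).Structure V] {n : ℕ} (i j : Fin n) (v : Fin n → V) :
    (eqv (k := k) i j).Realize default v ↔ v i = v j := by
  simp [eqv]

theorem real_alls [(lang k).Structure V] {n : ℕ} (φ : (lang k).BoundedFormula Empty n) :
    V ⊨ φ.alls ↔ ∀ v : Fin n → V, φ.Realize default v := BoundedFormula.realize_alls

/-- patterns on `n` points -/
abbrev Pat (k : S → ℕ) (n : ℕ) : Type := (Σ P, Fin (k P) ↪ Fin n) → Prop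

/-- the pattern occurs off the diagonal -/
def Occurs (N : ∀ P, Set (E (Fin (k P)))) {n : ℕ} (p : Pat k n) : Prop :=
  ∃ y : E (Fin n), y ∉ Diag (Fin n) ∧ ∀ P α, pull α y ∈ N P ↔ p ⟨P, α⟩

variable [Finite S]

/-- predicates are false on tuples with a repeated entry -/
noncomputable def can (k : S → ℕ) (n : ℕ) : (lang k).BoundedFormula Empty n :=
  BoundedFormula.iInf fun P => BoundedFormula.iInf fun β : Fin (k P) → Fin n =>
    BoundedFormula.iInf fun p : {p : Fin (k P) × Fin (k P) // p.1 ≠ p.2} =>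
      (eqv (β p.1.1) (β p.1.2)).imp (atom P β).not

/-- the variables are distinct -/
noncomputable def inj (k : S → ℕ) (n : ℕ) : (lang k).BoundedFormula Empty n :=
  BoundedFormula.iInf fun p : {p : Fin n × Fin n // p.1 ≠ p.2} => (eqv p.1.1 p.1.2).not

open Classical in
/-- the variables have pattern `p` -/
noncomputable def dia {n : ℕ} (p : Pat k n) : (lang k).BoundedFormula Empty n :=
  BoundedFormula.iInf fun q : (Σ P, Fin (k P) ↪ Fin n) =>
    if p q then atom q.1 q.2 else (atom q.1 q.2).not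

/-- the structure is canonical and all `n` distinct points have a pattern that occurs -/
noncomputable def sent (N : ∀ P, Set (E (Fin (k P)))) (n : ℕ) : (lang k).Sentence :=
  (can k n ⊓ (inj k n).imp (BoundedFormula.iSup fun p : {p : Pat k n // Occurs N p} => dia p.1)).alls

theorem sent_univ (N : ∀ P, Set (E (Fin (k P)))) (n : ℕ) : (sent N n).IsUniversal := by
  refine univ_alls (BoundedFormula.IsQF.isUniversal (BoundedFormula.IsQF.inf ?_
    (BoundedFormula.IsQF.imp ?_ (qf_iSup fun p => qf_iInf fun q => ?_))))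
  · exact qf_iInf fun P => qf_iInf fun β => qf_iInf fun p => (qf_eqv _ _).imp (qf_atom _ _).not
  · exact qf_iInf fun _ => (qf_eqv _ _).not
  · split_ifs
    exacts [qf_atom _ _, (qf_atom _ _).not]

theorem real_sent (N : ∀ P, Set (E (Fin (k P)))) {n : ℕ} (hn : ∀ P, k P ≤ n)
    [M : (lang k).Structure V] : V ⊨ sent N n ↔ Canon M ∧ ∀ v : Fin n → V, Injective v →
      ∃ p : Pat k n, Occurs N p ∧ ∀ P (α : Fin (k P) ↪ Fin n), holds M P (v ∘ α) ↔ p ⟨P, α⟩ := by
  have h1 : ∀ v : Fin n → V, (can k n).Realize default v ↔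
      ∀ P (β : Fin (k P) → Fin n) i j, i ≠ j → v (β i) = v (β j) → ¬ holds M P (v ∘ β) := by
    intro v
    unfold can
    simp only [BoundedFormula.realize_iInf, BoundedFormula.realize_imp,
      BoundedFormula.realize_not, real_eqv, real_atom]
    exact ⟨fun h P β _ _ hij => h P β ⟨(_, _), hij⟩, fun h P β p => h P β _ _ p.2⟩
  have h2 : ∀ v : Fin n → V, (inj k n).Realize default v ↔ Injective v := by
    intro v
    unfold inj
    simp only [BoundedFormula.realize_iInf, BoundedFormula.realize_not, real_eqv]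
    exact ⟨fun h _ _ e => by_contra fun hne => h ⟨(_, _), hne⟩ e, fun h p e => p.2 (h e)⟩
  have h3 : ∀ (v : Fin n → V) (p : Pat k n), (dia p).Realize default v ↔
      ∀ P (α : Fin (k P) ↪ Fin n), holds M P (v ∘ α) ↔ p ⟨P, α⟩ := by
    intro v p
    unfold dia
    rw [BoundedFormula.realize_iInf, Sigma.forall]
    refine forall₂_congr fun P α => ?_
    split_ifs with h
    · simp [real_atom, h]
    · simp [real_atom, h]
  unfold sent
  rw [real_alls]
  simp only [BoundedFormula.realize_inf, BoundedFormula.realize_imp, BoundedFormula.realize_iSup,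
    h1, h2, h3, Subtype.exists, exists_prop]
  constructor
  · intro h
    refine ⟨fun P v hv hP => ?_, fun v => (h v).2⟩
    obtain ⟨i, j, e, hij⟩ := not_injective_iff.1 hv
    have h4 := (h (extend (Fin.castLE (hn P)) v fun _ => v i)).1 P (Fin.castLE (hn P)) i j hij
    have h5 : extend (Fin.castLE (hn P)) v (fun _ => v i) ∘ Fin.castLE (hn P) = v :=
      Function.extend_comp (Fin.castLE_injective _) _ _
    rw [h5] at h4
    refine h4 ?_ hP
    rw [(Fin.castLE_injective (hn P)).extend_apply, (Fin.castLE_injective (hn P)).extend_apply, e]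
  · rintro ⟨h4, h5⟩ v
    exact ⟨fun P β i j hij e => h4 P _ fun h => hij (h e), h5 v⟩

theorem models_sent (N : ∀ P, Set (E (Fin (k P)))) {n : ℕ} (hn : ∀ P, k P ≤ n)
    (M : (lang k).Structure V) : Models {sent N n} M ↔ Canon M ∧ ∀ v : Fin n → V, Injective v →
      ∃ p : Pat k n, Occurs N p ∧ ∀ P (α : Fin (k P) ↪ Fin n), holds M P (v ∘ α) ↔ p ⟨P, α⟩ :=
  Theory.model_singleton_iff.trans (real_sent N hn)

theorem pull_pull {n l : ℕ} (α : Fin l ↪ Fin n) (β : Fin n ↪ V) (x : E V) :
    pull α (pull β x) = pull (α.trans β) x := funext fun A => by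
  simp only [pull, Finset.map_map]

/-- singleton coordinates -/
def sg (x : E V) (i : V) : unitInterval := x ⟨{i}, Finset.singleton_nonempty i⟩

theorem sg_pull {n : ℕ} (α : Fin n ↪ V) (x : E V) : sg (pull α x) = sg x ∘ α := funext fun i => by
  simp only [sg, pull, Finset.map_singleton, comp]

theorem notMem_diag (x : E V) : x ∉ Diag V ↔ Injective (sg x) :=
  ⟨fun h i j e => by_contra fun hne => h ⟨i, j, hne, e⟩, fun h ⟨_, _, hne, e⟩ => hne (h e)⟩

theorem strong_sent {N : ∀ P, Set (E (Fin (k P)))} {n : ℕ} (hn : ∀ P, k P ≤ n)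
    (h0 : ∀ P, NullMeasurableSet (N P) volume) : Strong {sent N n} N := by
  refine ⟨h0, fun V _ M hM hno x hx => by_contra fun hd => hno ((models_sent N hn M).2
    ⟨hM, fun v hv => ⟨fun q => holds M q.1 (v ∘ q.2), ⟨pull ⟨v, hv⟩ x, ?_, fun P α => ?_⟩,
      fun P α => Iff.rfl⟩⟩)⟩
  · rw [notMem_diag, sg_pull]
    exact ((notMem_diag x).1 hd).comp hv
  · rw [pull_pull]
    exact hx P (α.trans ⟨v, hv⟩)

theorem transfer {N N' : ∀ P, Set (E (Fin (k P)))} {n : ℕ} (hn : ∀ P, k P ≤ n)
    (hs : Strong {sent N n} N') (x : E (Fin n)) (hx : x ∉ Diag (Fin n)) :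
    ∃ y : E (Fin n), y ∉ Diag (Fin n) ∧
      ∀ P (α : Fin (k P) ↪ Fin n), pull α y ∈ N P ↔ pull α x ∈ N' P := by
  let M : (lang k).Structure (Fin n) :=
    ⟨fun f => f.elim, fun {l} P v => ∃ h : Injective v,
      pull ⟨v ∘ Fin.cast P.2, h.comp (Fin.cast_injective _)⟩ x ∈ N' P.1⟩
  have hM : ∀ P v, holds M P v ↔ ∃ h : Injective v, pull ⟨v, h⟩ x ∈ N' P := fun _ _ => Iff.rfl
  have h1 : Models {sent N n} M := by
    by_contra hno
    refine hx (hs.2 _ M (fun P v hv h => hv ((hM P v).1 h).1) hno fun P α => ?_)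
    rw [hM]
    exact ⟨fun h => ⟨α.injective, h⟩, fun ⟨_, h⟩ => h⟩
  obtain ⟨p, ⟨y, hy, h2⟩, h3⟩ := ((models_sent N hn M).1 h1).2 id injective_id
  refine ⟨y, hy, fun P α => (h2 P α).trans ((h3 P α).symm.trans ?_)⟩
  rw [hM]
  exact ⟨fun ⟨_, h⟩ => h, fun h => ⟨α.injective, h⟩⟩

/-! ### Frames -/

open Classical in
/-- the point with given singleton coordinates and given higher coordinates -/
noncomputable def emb (h : Finset V → unitInterval) (s : V → unitInterval) : E V :=
  fun A => if hA : ∃ i, A.1 = {i} then s hA.choose else h A.1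

theorem emb_single (h : Finset V → unitInterval) (s : V → unitInterval)
    {A : {A : Finset V // A.Nonempty}} {i : V} (hA : A.1 = {i}) : emb h s A = s i := by
  have h1 : ∃ i, A.1 = {i} := ⟨i, hA⟩
  rw [emb, dif_pos h1, Finset.singleton_injective (h1.choose_spec.symm.trans hA)]

theorem sg_emb (h : Finset V → unitInterval) (s : V → unitInterval) : sg (emb h s) = s :=
  funext fun _ => emb_single h s rfl

theorem pull_emb {n : ℕ} (α : Fin n ↪ V) (h : Finset V → unitInterval) (s : V → unitInterval) :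
    pull α (emb h s) = emb (fun A => h (A.map α)) (s ∘ α) := funext fun A => by
  by_cases hA : ∃ i, A.1 = {i}
  · obtain ⟨i, hi⟩ := hA
    rw [emb_single _ _ hi]
    exact emb_single h s (by simp [hi])
  · have h1 : ¬ ∃ j, A.1.map α = {j} := fun h' =>
      hA (Finset.card_eq_one.1 (by rw [← Finset.card_map α]; exact Finset.card_eq_one.2 h'))
    simp only [pull, emb, dif_neg hA, dif_neg h1]

theorem meas_emb {Z : Type} [MeasurableSpace Z] (h : Finset V → unitInterval)
    {s : Z → V → unitInterval} (hs : ∀ i, Measurable fun z => s z i) :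
    Measurable fun z => emb h (s z) := by
  refine measurable_pi_lambda _ fun A => ?_
  unfold emb
  split_ifs
  exacts [hs _, measurable_const]

/-- free points, and the countably many points of the frame -/
abbrev Vx : Type := unitInterval ⊕ ℕ

/-- all free points have the same colour -/
def col : Vx → Option ℕ := Sum.elim (fun _ => none) some

/-- the singleton coordinate of a vertex -/
def val (ε : Finset (Option ℕ) → unitInterval) : Vx → unitInterval :=
  Sum.elim id fun i => ε {some i}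

/-- the point determined by the frame coordinates -/
noncomputable def pt (ε : Finset (Option ℕ) → unitInterval) (T : V → Vx) : E V :=
  emb (fun A => ε (A.image (col ∘ T))) (val ε ∘ T)

theorem sg_pt (ε : Finset (Option ℕ) → unitInterval) (T : V → Vx) : sg (pt ε T) = val ε ∘ T :=
  sg_emb _ _

theorem pull_pt {n : ℕ} (α : Fin n ↪ V) (ε : Finset (Option ℕ) → unitInterval) (T : V → Vx) :
    pull α (pt ε T) = pt ε (T ∘ α) := by
  classical
  unfold pt
  rw [pull_emb]
  refine congrArg (fun h => emb h _) (funext fun A => ?_)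
  rw [Finset.map_eq_image, Finset.image_image]
  rfl

theorem meas_pt {Z : Type} [MeasurableSpace Z] (ε : Finset (Option ℕ) → unitInterval)
    (f : Z → V → Vx) (c : V → Option ℕ) (hc : ∀ z i, col (f z i) = c i)
    (hm : ∀ i, Measurable fun z => val ε (f z i)) : Measurable fun z => pt ε (f z) := by
  have h : ∀ z, pt ε (f z) = emb (fun A => ε (A.image c)) (val ε ∘ f z) := fun z => by
    unfold pt
    rw [show col ∘ f z = c from funext (hc z)]
  simp only [h]
  exact meas_emb _ hm

/-- the first set agrees with the second on all points given by different colours -/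
def Good {K : ℕ} (N N' : Set (E (Fin K))) (ε : Finset (Option ℕ) → unitInterval) : Prop :=
  ∀ α : Fin K ↪ Option ℕ, (fun A => ε (A.1.map α)) ∈ N ↔ (fun A => ε (A.1.map α)) ∈ N'

theorem ae_good {K : ℕ} {N N' : Set (E (Fin K))} (h : ∀ᵐ x, x ∈ N ↔ x ∈ N') :
    ∀ᵐ ε ∂iid volume (Finset (Option ℕ)), Good N N' ε := by
  have : Countable (Fin K ↪ Option ℕ) := DFunLike.coe_injective.countable
  refine ae_all_iff.2 fun α => ?_
  have h1 : Injective fun A : {A : Finset (Fin K) // A.Nonempty} => A.1.map α := fun A B e =>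
    Subtype.ext (Finset.map_injective α e)
  exact (mp_reindex volume _ h1).quasiMeasurePreserving.ae h

theorem good_pt {K : ℕ} {N N' : Set (E (Fin K))} {ε : Finset (Option ℕ) → unitInterval}
    {x : unitInterval} (hg : Good N N' (update ε {none} x)) {T : Fin K → Vx}
    (hT : Injective (col ∘ T)) (hx : ∀ i y, T i = Sum.inl y → y = x) :
    pt ε T ∈ N ↔ pt ε T ∈ N' := by
  have h : pt ε T = fun A => update ε {none} x (A.1.map ⟨col ∘ T, hT⟩) := by
    funext A
    by_cases hA : ∃ i, A.1 = {i}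
    · obtain ⟨i, hi⟩ := hA
      rw [pt, emb_single _ _ hi, hi, Finset.map_singleton]
      change val ε (T i) = update ε {none} x {col (T i)}
      rcases h : T i with y | j
      · change y = update ε {none} x {none}
        rw [update_self, hx i y h]
      · change ε {some j} = update ε {none} x {some j}
        rw [update_of_ne (by simp)]
    · have h1 : ¬ ∃ j, A.1.map ⟨col ∘ T, hT⟩ = {j} := fun h' =>
        hA (Finset.card_eq_one.1 (by
          rw [← Finset.card_map ⟨col ∘ T, hT⟩]; exact Finset.card_eq_one.2 h'))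
      rw [pt, emb, dif_neg hA, update_of_ne (fun e => h1 ⟨_, e⟩), Finset.map_eq_image]
      rfl
  rw [h]
  exact hg ⟨_, hT⟩

/-- a tuple: first the entries of `s`, then dummies, then the selectors in a given order -/
def tup (sel : Fin 4 → ℕ) (m : ℕ) (τ : Equiv.Perm (Fin 4)) {l : ℕ} (s : Fin l → Vx) :
    Fin (m + 4) → Vx :=
  Fin.append (fun j : Fin m => if h : j.1 < l then s ⟨j, h⟩ else Sum.inr j.1)
    fun i => Sum.inr (sel (τ.symm i))

theorem comp_tup {X : Type} (f : Vx → X) (sel : Fin 4 → ℕ) (m : ℕ) (τ : Equiv.Perm (Fin 4)) {l : ℕ}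
    (s : Fin l → Vx) : f ∘ tup sel m τ s =
      Fin.append (fun j : Fin m => f (if h : j.1 < l then s ⟨j, h⟩ else Sum.inr j.1))
        ((fun i => f (Sum.inr (sel i))) ∘ τ.symm) := by
  funext i
  refine Fin.addCases (fun j => ?_) (fun j => ?_) i
  · simp only [tup, comp, Fin.append_left]
  · simp only [tup, comp, Fin.append_right]

theorem tup_inj {X : Type} (f : Vx → X) {sel : Fin 4 → ℕ} (hsel : Injective sel) {m : ℕ}
    (hsel1 : ∀ i, m ≤ sel i) (hsel2 : ∀ i, sel i < m + 4) (τ : Equiv.Perm (Fin 4)) {l : ℕ}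
    {s : Fin l → Vx} (hs : Injective (f ∘ s)) (hs' : ∀ i j, j < m + 4 → f (s i) ≠ f (Sum.inr j))
    (hf : Injective fun j : ℕ => f (Sum.inr j)) : Injective (f ∘ tup sel m τ s) := by
  rw [comp_tup, Fin.append_injective_iff]
  refine ⟨fun i j h => ?_, fun i j h => ?_, fun i j h => ?_⟩
  · dsimp only at h
    split_ifs at h with h1 h2 h2
    · have := hs h
      simpa [Fin.ext_iff] using this
    · exact absurd h (hs' _ _ (by omega))
    · exact absurd h.symm (hs' _ _ (by omega))
    · exact Fin.ext (hf h)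
  · exact τ.symm.injective (hsel (hf h))
  · dsimp only [comp] at h
    split_ifs at h with h1
    · exact hs' _ _ (hsel2 _) h
    · have h3 := hf h
      have h4 := hsel1 (τ.symm j)
      have h5 : (i : ℕ) = sel (τ.symm j) := h3
      omega

theorem tup_mem {A : Set Vx} {sel : Fin 4 → ℕ} {m : ℕ} (hsel2 : ∀ i, sel i < m + 4)
    (τ : Equiv.Perm (Fin 4)) {l : ℕ} {s : Fin l → Vx} (hs : ∀ i, s i ∈ A)
    (hA : ∀ j < m + 4, Sum.inr j ∈ A) (i : Fin (m + 4)) : tup sel m τ s i ∈ A := by
  refine Fin.addCases (fun j => ?_) (fun j => ?_) i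
  · simp only [tup, Fin.append_left]
    split_ifs
    · exact hs _
    · exact hA _ (by omega)
  · simp only [tup, Fin.append_right]
    exact hA _ (hsel2 _)

theorem RN_tup {m : ℕ} (hm : 10 ≤ m) {D : unitInterval → G} {sel : Fin 4 → ℕ} {f : Vx → unitInterval}
    (hf : StrictMono fun i => f (Sum.inr (sel i))) {τ : Equiv.Perm (Fin 4)} {p : Sy}
    (hτ : lab τ = .inl p) (s : Fin (ar p) → Vx) :
    RN hm D (f ∘ tup sel m τ s) ↔ pr D κ p (f ∘ s) := by
  rw [comp_tup, RN_append hm _ hf, hτ]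
  simp only [prL]
  refine iff_of_eq (congrArg _ (funext fun i => ?_))
  simp [i.2]

theorem RN_tup' {m : ℕ} (hm : 10 ≤ m) {D : unitInterval → G} {sel : Fin 4 → ℕ}
    {f : Vx → unitInterval} {ρ : Equiv.Perm (Fin 4)}
    (hf : StrictMono ((fun i => f (Sum.inr (sel i))) ∘ ρ)) {τ : Equiv.Perm (Fin 4)} {b : Bool}
    (hτ : lab (τ * ρ) = .inr b) {l : ℕ} (s : Fin l → Vx) :
    RN hm D (f ∘ tup sel m τ s) ↔ b = true := by
  rw [comp_tup, RN_append' hm _ hf, hτ]
  rfl

theorem frame_transfer {K n : ℕ} {N' : Set (E (Fin K))} {R : (Fin K → unitInterval) → Prop}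
    (htr : ∀ x : E (Fin n), x ∉ Diag (Fin n) → ∃ y : E (Fin n), y ∉ Diag (Fin n) ∧
      ∀ α : Fin K ↪ Fin n, R (sg y ∘ α) ↔ pull α x ∈ N')
    {ε : Finset (Option ℕ) → unitInterval} (hε : Injective ε) (F : Finset unitInterval)
    (B : Finset ℕ) (hc : F.card + B.card ≤ n) (hF : ∀ x ∈ F, x ∉ range fun i : ℕ => ε {some i}) :
    ∃ ψ : Vx → unitInterval, InjOn ψ (F.disjSum B) ∧ ∀ s : Fin K → Vx, Injective s →
      (∀ i, s i ∈ F.disjSum B) → (pt ε s ∈ N' ↔ R (ψ ∘ s)) := by
  obtain ⟨B', hB, hB'⟩ := Infinite.exists_superset_card_eq B (n - F.card) (by omega)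
  have hcard : (F.disjSum B').card = n := by
    rw [Finset.card_disjSum, hB']; omega
  have hsub : F.disjSum B ⊆ F.disjSum B' := Finset.disjSum_mono (Finset.Subset.refl _) hB
  let e := (Finset.equivFinOfCardEq hcard).symm
  let T : Fin n → Vx := fun i => (e i).1
  have hT : Injective T := Subtype.val_injective.comp e.injective
  have hv : InjOn (val ε) (F.disjSum B') := by
    rintro (x | i) hx (y | j) hy h
    · exact congrArg _ h
    · exact absurd ⟨j, h.symm⟩ (hF x (by simpa using hx))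
    · exact absurd ⟨i, h⟩ (hF y (by simpa using hy))
    · have h1 : ({some i} : Finset (Option ℕ)) = {some j} := hε h
      simpa using h1
  have h1 : pt ε T ∉ Diag (Fin n) := by
    rw [notMem_diag, sg_pt]
    exact fun i j h => hT (hv (e i).2 (e j).2 h)
  obtain ⟨y, hy, h2⟩ := htr _ h1
  have h3 : extend T (sg y) (fun _ => 0) ∘ T = sg y := extend_comp hT _ _
  have h4 : ∀ v ∈ F.disjSum B, ∃ i, T i = v := fun v hv =>
    ⟨e.symm ⟨v, hsub hv⟩, by simp [T]⟩
  refine ⟨extend T (sg y) fun _ => 0, ?_, fun s hs hsm => ?_⟩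
  · intro a ha b hb h
    obtain ⟨i, rfl⟩ := h4 a ha
    obtain ⟨j, rfl⟩ := h4 b hb
    rw [hT.extend_apply, hT.extend_apply] at h
    rw [(notMem_diag y).1 hy h]
  · choose α hα using fun i => h4 (s i) (hsm i)
    obtain rfl : s = T ∘ α := funext fun i => (hα i).symm
    have h5 := h2 ⟨α, hs.of_comp⟩
    rw [pull_pt] at h5
    rw [← comp_assoc, h3]
    exact h5.symm

/-- a generic frame: `w k` has label `k`, and `sel` lists four vertices in increasing order -/
structure Frame {m : ℕ} (hm : 10 ≤ m) (D : unitInterval → G) (N' : Set (E (Fin (m + 4))))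
    (ε : Finset (Option ℕ) → unitInterval) (w : ℕ → ℕ) (sel : Fin 4 → ℕ) : Prop where
  ε_inj : Injective ε
  κw : ∀ k, κ (ε {some (w k)}) = k
  wm : ∀ k, m + 4 ≤ w k
  sel_inj : Injective sel
  sel1 : ∀ i, m ≤ sel i
  sel2 : ∀ i, sel i < m + 4
  sort : StrictMono fun i => val ε (Sum.inr (sel i))
  good : ∀ᵐ x : unitInterval, Good N' {x | RN hm D (sg x)} (update ε {none} x)

theorem exists_frame {m : ℕ} (hm : 10 ≤ m) {D : unitInterval → G} {N' : Set (E (Fin (m + 4)))}
    (hae : ∀ᵐ x : E (Fin (m + 4)), x ∈ N' ↔ RN hm D (sg x)) :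
    ∃ ε w sel, Frame hm D N' ε w sel := by
  have b1 : ∀ᵐ ε ∂iid volume (Finset (Option ℕ)), Good N' {x | RN hm D (sg x)} ε := ae_good hae
  have b2 := (mp_update (volume : Measure unitInterval)
    ({none} : Finset (Option ℕ))).quasiMeasurePreserving.ae b1
  have a1 : ∀ᵐ ε ∂iid volume (Finset (Option ℕ)), ∀ᵐ x : unitInterval,
      Good N' {x | RN hm D (sg x)} (update ε {none} x) := Measure.ae_ae_of_ae_prod b2
  have a2 := ae_distinct (volume : Measure unitInterval) (ι := Finset (Option ℕ))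
  have a3 : ∀ᵐ ε ∂iid volume (Finset (Option ℕ)), ∀ k : ℕ, ∃ i : ℕ,
      ε {some (m + 4 + i)} ∈ {w : unitInterval | κ w = k} :=
    ae_all_iff.2 fun k => ae_hit volume (meas_κ (measurableSet_singleton k)) (κ_fib k)
      (fun i => {some (m + 4 + i)}) fun i j h => by simpa using h
  obtain ⟨ε, hg, hε, hw⟩ := (a1.and (a2.and a3)).exists
  choose w0 hw0 using hw
  have hval : Injective fun j : ℕ => val ε (Sum.inr j) := fun i j h => by
    have h1 : ({some i} : Finset (Option ℕ)) = {some j} := hε h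
    simpa using h1
  let e0 : Fin 4 → unitInterval := fun i => val ε (Sum.inr (m + i))
  have h1 : Injective fun i : Fin 4 => m + (Tuple.sort e0 i : ℕ) := fun i j h => by
    have h2 : (Tuple.sort e0 i : ℕ) = Tuple.sort e0 j := Nat.add_left_cancel h
    exact (Tuple.sort e0).injective (Fin.ext h2)
  exact ⟨ε, fun k => m + 4 + w0 k, fun i => m + (Tuple.sort e0 i : ℕ), hε, hw0,
    fun k => Nat.le_add_right _ _, h1, fun i => Nat.le_add_right _ _,
    fun i => Nat.add_lt_add_left (Tuple.sort e0 i).2 m,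
    (Tuple.monotone_sort e0).strictMono_of_injective (hval.comp h1), hg⟩

namespace Frame

variable {m : ℕ} {hm : 10 ≤ m} {D : unitInterval → G} {N' : Set (E (Fin (m + 4)))}
  {ε : Finset (Option ℕ) → unitInterval} {w : ℕ → ℕ} {sel : Fin 4 → ℕ}

theorem truth' (F : Frame hm D N' ε w sel) {x : unitInterval}
    (hx : Good N' {x | RN hm D (sg x)} (update ε {none} x)) (σ : Equiv.Perm (Fin 4)) {l : ℕ}
    (s : Fin l → Vx) (hs : Injective (col ∘ s)) (hs1 : ∀ i j, j < m + 4 → s i ≠ Sum.inr j)
    (hs2 : ∀ i y, s i = Sum.inl y → y = x) :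
    pt ε (tup sel m σ s) ∈ N' ↔ RN hm D (val ε ∘ tup sel m σ s) := by
  have hcol : Injective fun j : ℕ => col (Sum.inr j) := fun i j h => Option.some_injective _ h
  have h1 : Injective (col ∘ tup sel m σ s) :=
    tup_inj col F.sel_inj F.sel1 F.sel2 σ hs (fun i j hj h => by
      rcases h2 : s i with y | i'
      · rw [h2] at h; exact absurd h (by simp [col])
      · rw [h2] at h
        have h3 : i' = j := Option.some_injective _ h
        exact hs1 i j hj (h3 ▸ h2)) hcol
  rw [good_pt hx h1 fun i => tup_mem (A := {v | ∀ y, v = Sum.inl y → y = x}) F.sel2 σ hs2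
    (fun j _ y h => by simp at h) i]
  change RN hm D (sg (pt ε _)) ↔ _
  rw [sg_pt]

theorem truth (F : Frame hm D N' ε w sel) {x : unitInterval}
    (hx : Good N' {x | RN hm D (sg x)} (update ε {none} x)) {σ : Equiv.Perm (Fin 4)} {p : Sy}
    (hσ : lab σ = .inl p) (s : Fin (ar p) → Vx) (hs : Injective (col ∘ s))
    (hs1 : ∀ i j, j < m + 4 → s i ≠ Sum.inr j) (hs2 : ∀ i y, s i = Sum.inl y → y = x) :
    pt ε (tup sel m σ s) ∈ N' ↔ pr D κ p (val ε ∘ s) :=
  (F.truth' hx σ s hs hs1 hs2).trans (RN_tup hm F.sort hσ s)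

theorem w_ne (F : Frame hm D N' ε w sel) (k : ℕ) : w k ≠ w (k + 1) := fun h => by
  have h2 := F.κw k
  rw [h, F.κw] at h2
  omega

theorem w_col (F : Frame hm D N' ε w sel) (k : ℕ) :
    Injective (col ∘ (![Sum.inr (w k), Sum.inr (w (k + 1))] : Fin 2 → Vx)) := by
  have h1 := F.w_ne k
  intro i j h
  have h' : col ((![Sum.inr (w k), Sum.inr (w (k + 1))] : Fin 2 → Vx) i) =
    col ((![Sum.inr (w k), Sum.inr (w (k + 1))] : Fin 2 → Vx) j) := h
  clear h F
  fin_cases i <;> fin_cases j
  · rfl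
  · exact absurd (Option.some_injective _ h') h1
  · exact absurd (Option.some_injective _ h').symm h1
  · rfl

theorem w_ne' (F : Frame hm D N' ε w sel) (k : ℕ) (i : Fin 2) (j : ℕ) (hj : j < m + 4) :
    (![Sum.inr (w k), Sum.inr (w (k + 1))] : Fin 2 → Vx) i ≠ Sum.inr j := by
  have h4 := F.wm k
  have h5 := F.wm (k + 1)
  intro h
  clear F
  fin_cases i
  · have h6 : w k = j := Sum.inr_injective h
    omega
  · have h6 : w (k + 1) = j := Sum.inr_injective h
    omega

theorem tr (Φ : Frame hm D N' ε w sel) {n : ℕ} (hn : m + 21 ≤ n)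
    (htr : ∀ x : E (Fin n), x ∉ Diag (Fin n) → ∃ y : E (Fin n), y ∉ Diag (Fin n) ∧
      ∀ α : Fin (m + 4) ↪ Fin n, RN hm D (sg y ∘ α) ↔ pull α x ∈ N')
    {τ : Sy → Equiv.Perm (Fin 4)} (hτ : ∀ p, lab (τ p) = .inl p)
    (k : ℕ) (F : Finset unitInterval) (hF : F.card ≤ 15)
    (hFZ : ∀ x ∈ F, x ∉ range fun i : ℕ => ε {some i}) : ∃ ψ : Vx → unitInterval,
      κ (ψ (Sum.inr (w (k + 1)))) = κ (ψ (Sum.inr (w k))) + 1 ∧
      (k = 0 → κ (ψ (Sum.inr (w k))) = 0) ∧
      ∀ p (s : Fin (ar p) → Vx), Injective s → (∀ i, (∃ x ∈ F, s i = Sum.inl x) ∨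
        s i = Sum.inr (w k) ∨ s i = Sum.inr (w (k + 1))) →
        (pt ε (tup sel m (τ p) s) ∈ N' ↔ pr D κ p (ψ ∘ s)) := by
  have hB : (Finset.range (m + 4) ∪ {w k, w (k + 1)}).card ≤ m + 6 := by
    refine (Finset.card_union_le _ _).trans ?_
    have := Finset.card_le_two (a := w k) (b := w (k + 1))
    rw [Finset.card_range]
    omega
  obtain ⟨ψ, hψ, h1⟩ := frame_transfer (R := RN hm D) htr Φ.ε_inj F
    (Finset.range (m + 4) ∪ {w k, w (k + 1)}) (by omega) hFZ
  have mB : ∀ j < m + 4, (Sum.inr j : Vx) ∈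
      {v | v ∈ F.disjSum (Finset.range (m + 4) ∪ {w k, w (k + 1)})} := fun j hj => by
    simp [hj]
  have he : Injective fun i => ψ (Sum.inr (sel i)) := fun i j h => Φ.sel_inj (by
    have := hψ (mB _ (Φ.sel2 i)) (mB _ (Φ.sel2 j)) h
    exact Sum.inr_injective this)
  obtain ⟨ρ, hρ⟩ : ∃ ρ : Equiv.Perm (Fin 4), StrictMono ((fun i => ψ (Sum.inr (sel i))) ∘ ρ) :=
    ⟨Tuple.sort _, (Tuple.monotone_sort _).strictMono_of_injective
      (he.comp (Tuple.sort _).injective)⟩
  obtain ⟨x0, hx0⟩ := Φ.good.exists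
  have hρ1 : ρ = 1 := by
    by_contra hne
    obtain ⟨σ, h2, h3⟩ := lab_sep ρ hne
    have i0 : Injective (tup sel m σ (Fin.elim0 : Fin 0 → Vx)) :=
      tup_inj id Φ.sel_inj Φ.sel1 Φ.sel2 σ (fun i => i.elim0) (fun i => i.elim0)
        Sum.inr_injective
    have i2 := Φ.truth' hx0 σ (Fin.elim0 : Fin 0 → Vx) (fun i => i.elim0)
      (fun i => i.elim0) fun i => i.elim0
    have i3 : RN hm D (val ε ∘ tup sel m σ (Fin.elim0 : Fin 0 → Vx)) :=
      (RN_tup' hm (ρ := 1) Φ.sort (by rw [mul_one]; exact h2) _).2 rfl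
    have i4 := (h1 _ i0 (tup_mem Φ.sel2 σ (fun i => i.elim0) mB)).1 (i2.2 i3)
    exact absurd ((RN_tup' hm hρ h3 _).1 i4) (by simp)
  have hmono : StrictMono fun i => ψ (Sum.inr (sel i)) := by
    rw [hρ1] at hρ
    exact hρ
  have h2 : ∀ p (s : Fin (ar p) → Vx), Injective s → (∀ i, (∃ x ∈ F, s i = Sum.inl x) ∨
      s i = Sum.inr (w k) ∨ s i = Sum.inr (w (k + 1))) →
      (pt ε (tup sel m (τ p) s) ∈ N' ↔ pr D κ p (ψ ∘ s)) := by
    intro p s hs hsm
    have j1 : Injective (tup sel m (τ p) s) :=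
      tup_inj id Φ.sel_inj Φ.sel1 Φ.sel2 (τ p) hs (fun i j hj h => by
        have hk := Φ.wm k
        have hk' := Φ.wm (k + 1)
        change s i = Sum.inr j at h
        rcases hsm i with ⟨x, -, h5⟩ | h5 | h5
        · rw [h5] at h; cases h
        · rw [h5] at h
          have : w k = j := Sum.inr_injective h
          omega
        · rw [h5] at h
          have : w (k + 1) = j := Sum.inr_injective h
          omega) Sum.inr_injective
    refine (h1 _ j1 (tup_mem Φ.sel2 (τ p) (fun i => ?_) mB)).trans (RN_tup hm hmono (hτ p) s)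
    rcases hsm i with ⟨x, hx, h5⟩ | h5 | h5
    · simp [h5, hx]
    · simp [h5]
    · simp [h5]
  have hy : ∀ i y, (![Sum.inr (w k), Sum.inr (w (k + 1))] : Fin 2 → Vx) i = Sum.inl y →
      y = x0 := by
    intro i y h
    fin_cases i <;> cases h
  have hy' : ∀ i, (∃ x ∈ F, (![Sum.inr (w k), Sum.inr (w (k + 1))] : Fin 2 → Vx) i = Sum.inl x) ∨
      (![Sum.inr (w k), Sum.inr (w (k + 1))] : Fin 2 → Vx) i = Sum.inr (w k) ∨
      (![Sum.inr (w k), Sum.inr (w (k + 1))] : Fin 2 → Vx) i = Sum.inr (w (k + 1)) :=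
    Fin.forall_fin_two.2 ⟨Or.inr (Or.inl rfl), Or.inr (Or.inr rfl)⟩
  refine ⟨ψ, ?_, fun hk => ?_, h2⟩
  · have j2 := Φ.truth hx0 (hτ .succ) ![Sum.inr (w k), Sum.inr (w (k + 1))] (Φ.w_col k)
      (Φ.w_ne' k) hy
    have j3 := h2 .succ ![Sum.inr (w k), Sum.inr (w (k + 1))] (Φ.w_col k).of_comp hy'
    refine j3.1 (j2.2 ?_)
    change κ (ε {some (w (k + 1))}) = κ (ε {some (w k)}) + 1
    rw [Φ.κw, Φ.κw]
  · have j2 := Φ.truth hx0 (hτ .fst) ![Sum.inr (w k), Sum.inr (w (k + 1))] (Φ.w_col k)
      (Φ.w_ne' k) hy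
    have j3 := h2 .fst ![Sum.inr (w k), Sum.inr (w (k + 1))] (Φ.w_col k).of_comp hy'
    refine j3.1 (j2.2 ?_)
    change κ (ε {some (w k)}) = 0
    rw [Φ.κw, hk]

end Frame

theorem no_um {m : ℕ} (hm : 10 ≤ m) {π : G → unitInterval} {D : unitInterval → G}
    (hi : AeIso μ volume π D) {N' : Set (E (Fin (m + 4)))} (hU : UM N')
    (hae : ∀ᵐ x : E (Fin (m + 4)), x ∈ N' ↔ RN hm D (sg x)) {n : ℕ} (hn : m + 21 ≤ n)
    (htr : ∀ x : E (Fin n), x ∉ Diag (Fin n) → ∃ y : E (Fin n), y ∉ Diag (Fin n) ∧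
      ∀ α : Fin (m + 4) ↪ Fin n, RN hm D (sg y ∘ α) ↔ pull α x ∈ N') : False := by
  obtain ⟨ε, w, sel, Φ⟩ := exists_frame hm hae
  choose τ hτ using lab_surj
  have um : ∀ {Z : Type} [MeasurableSpace Z] (f : Z → Fin (m + 4) → Vx)
      (c : Fin (m + 4) → Option ℕ), (∀ z i, col (f z i) = c i) →
      (∀ i, Measurable fun z => val ε (f z i)) → ∀ ν : Measure Z, IsFiniteMeasure ν →
      NullMeasurableSet {z | pt ε (f z) ∈ N'} ν := by
    intro Z _ f c hc hf ν _
    have h1 := meas_pt ε f c hc hf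
    exact (hU (ν.map fun z => pt ε (f z)) inferInstance).preimage
      ⟨h1, Measure.AbsolutelyContinuous.rfl⟩
  have um' : ∀ {Z : Type} [MeasurableSpace Z] (p : Sy) (f : Z → Fin (ar p) → Vx)
      (c : Fin (ar p) → Option ℕ), (∀ z i, col (f z i) = c i) →
      (∀ i, Measurable fun z => val ε (f z i)) → ∀ ν : Measure Z, IsFiniteMeasure ν →
      NullMeasurableSet {z | pt ε (tup sel m (τ p) (f z)) ∈ N'} ν := by
    intro Z _ p f c hc hf ν hν
    refine um _ (Fin.append (fun j : Fin m => if h : j.1 < ar p then c ⟨j, h⟩ else some j.1)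
      fun i => some (sel ((τ p).symm i))) (fun z i => ?_) (fun i => ?_) ν hν
    · refine Fin.addCases (fun j => ?_) (fun j => ?_) i
      · simp only [tup, Fin.append_left]
        split_ifs
        · exact hc z _
        · rfl
      · simp only [tup, Fin.append_right]
        rfl
    · refine Fin.addCases (fun j => ?_) (fun j => ?_) i
      · simp only [tup, Fin.append_left]
        split_ifs
        · exact hf _
        · exact measurable_const
      · simp only [tup, Fin.append_right]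
        exact measurable_const
  refine core volume hi (countable_range fun i : ℕ => ε {some i})
    (fun x j => pt ε (tup sel m (τ .bit) ![Sum.inl x, Sum.inr (w j)]) ∈ N')
    (fun j r => pt ε (tup sel m (τ .ok) (Fin.cons (Sum.inr (w j)) (Sum.inl ∘ r))) ∈ N')
    (fun s => pt ε (tup sel m (τ .lt) (Sum.inl ∘ s)) ∈ N')
    (fun x j r => pt ε (tup sel m (τ .dg)
      (Fin.cons (Sum.inl x) (Fin.cons (Sum.inr (w j)) (Sum.inl ∘ r)))) ∈ N') ?_ ?_ ?_ ?_
  · exact um' .lt (fun s => Sum.inl ∘ s) (fun _ => none) (fun _ _ => rfl)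
      fun i => measurable_pi_apply i
  · intro j r
    refine um' .dg (fun x => Fin.cons (Sum.inl x) (Fin.cons (Sum.inr (w j)) (Sum.inl ∘ r)))
      (Fin.cons none (Fin.cons (some (w j)) fun _ => none)) (fun x => ?_) ?_
    · exact Fin.cases rfl (Fin.cases rfl fun _ => rfl)
    · exact Fin.cases measurable_id (Fin.cases measurable_const fun _ => measurable_const)
  · intro k F hF hFZ
    obtain ⟨ψ, h1, h2, h3⟩ := Φ.tr hn htr hτ k F hF hFZ
    refine ⟨fun x => D (ψ (Sum.inl x)), κ (ψ (Sum.inr (w k))), h2, fun x hx => ?_,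
      fun r hr hrF => ?_, fun u v hu hv huv huF hvF => ?_, fun x hx r hr hxr hrF => ?_⟩
    · have h4 : ∀ j, j = w k ∨ j = w (k + 1) →
          (pt ε (tup sel m (τ .bit) ![Sum.inl x, Sum.inr j]) ∈ N' ↔
            D (ψ (Sum.inl x)) (κ (ψ (Sum.inr j))) = 1) := by
        intro j hj
        refine h3 .bit ![Sum.inl x, Sum.inr j] (fun a b hab => ?_)
          (Fin.forall_fin_two.2 ⟨Or.inl ⟨x, hx, rfl⟩, Or.inr ?_⟩)
        · clear h3 h2 h1
          fin_cases a <;> fin_cases b
          · rfl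
          · cases hab
          · cases hab
          · rfl
        · rcases hj with rfl | rfl
          exacts [Or.inl rfl, Or.inr rfl]
      have h5 := h4 (w k) (Or.inl rfl)
      have h6 := h4 (w (k + 1)) (Or.inr rfl)
      rw [h1] at h6
      exact ⟨h5, h6⟩
    · have h4 : ∀ j, j = w k ∨ j = w (k + 1) →
          (pt ε (tup sel m (τ .ok) (Fin.cons (Sum.inr j) (Sum.inl ∘ r))) ∈ N' ↔
            Ok0 (κ (ψ (Sum.inr j))) fun i => D (ψ (Sum.inl (r i)))) := by
        intro j hj
        refine h3 .ok (Fin.cons (Sum.inr j) (Sum.inl ∘ r)) (Fin.cons_injective_iff.2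
          ⟨?_, Sum.inl_injective.comp hr⟩) (Fin.cases (Or.inr ?_) fun i => Or.inl ⟨r i, hrF i, rfl⟩)
        · rintro ⟨i, hi⟩
          cases hi
        · rcases hj with rfl | rfl
          exacts [Or.inl rfl, Or.inr rfl]
      have h5 := h4 (w k) (Or.inl rfl)
      have h6 := h4 (w (k + 1)) (Or.inr rfl)
      rw [h1] at h6
      exact ⟨h5, h6⟩
    · refine (h3 .lt (Sum.inl ∘ Fin.append u v) (Sum.inl_injective.comp
        (Fin.append_injective_iff.2 ⟨hu, hv, huv⟩)) fun i => Or.inl ⟨_, ?_, rfl⟩).trans ?_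
      · refine Fin.addCases (fun i => ?_) (fun i => ?_) i
        · rw [Fin.append_left]; exact huF i
        · rw [Fin.append_right]; exact hvF i
      · simp only [pr, comp, Fin.append_left, Fin.append_right]
        exact Iff.rfl
    · have h4 : ∀ j, j = w k ∨ j = w (k + 1) →
          (pt ε (tup sel m (τ .dg) (Fin.cons (Sum.inl x)
            (Fin.cons (Sum.inr j) (Sum.inl ∘ r)))) ∈ N' ↔
            Dg0 (D (ψ (Sum.inl x))) (κ (ψ (Sum.inr j))) fun i => D (ψ (Sum.inl (r i)))) := by
        intro j hj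
        refine h3 .dg (Fin.cons (Sum.inl x) (Fin.cons (Sum.inr j) (Sum.inl ∘ r)))
          (Fin.cons_injective_iff.2 ⟨?_, Fin.cons_injective_iff.2
            ⟨?_, Sum.inl_injective.comp hr⟩⟩)
          (Fin.cases (Or.inl ⟨x, hx, rfl⟩) (Fin.cases (Or.inr ?_) fun i => Or.inl ⟨r i, hrF i, rfl⟩))
        · rintro ⟨i, hi⟩
          induction i using Fin.cases with
          | zero => cases hi
          | succ i => exact hxr i (Sum.inl_injective hi).symm
        · rintro ⟨i, hi⟩
          cases hi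
        · rcases hj with rfl | rfl
          exacts [Or.inl rfl, Or.inr rfl]
      have h5 := h4 (w k) (Or.inl rfl)
      have h6 := h4 (w (k + 1)) (Or.inr rfl)
      rw [h1] at h6
      exact ⟨h5, h6⟩
  · filter_upwards [Φ.good] with x hx k
    have hk := Φ.wm k
    refine (Φ.truth hx (hτ .bit) ![Sum.inl x, Sum.inr (w k)] (fun a b hab => ?_)
      (fun i j hj h => ?_) fun i y h => ?_).trans ?_
    · have hab' : col ((![Sum.inl x, Sum.inr (w k)] : Fin 2 → Vx) a) =
        col ((![Sum.inl x, Sum.inr (w k)] : Fin 2 → Vx) b) := hab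
      clear hab
      fin_cases a <;> fin_cases b
      · rfl
      · cases hab'
      · cases hab'
      · rfl
    · fin_cases i
      · cases h
      · have h6 : w k = j := Sum.inr_injective h
        omega
    · fin_cases i
      · exact (Sum.inl_injective h).symm
      · cases h
    · change D x (κ (ε {some (w k)})) = 1 ↔ _
      rw [Φ.κw]

/-- the coded relation for an arity `K ≥ 14` -/
def RK (D : unitInterval → G) {K : ℕ} (t : Fin K → unitInterval) : Prop :=
  ∃ (m : ℕ) (h : m + 4 = K) (hm : 10 ≤ m), RN hm D (t ∘ Fin.cast h)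

theorem RK_iff (D : unitInterval → G) {m : ℕ} (hm : 10 ≤ m) (t : Fin (m + 4) → unitInterval) :
    RK D t ↔ RN hm D t := by
  constructor
  · rintro ⟨m', h, hm', h1⟩
    obtain rfl : m' = m := by omega
    exact h1
  · exact fun h => ⟨m, rfl, hm, h⟩

theorem null_RK {D : unitInterval → G} (hD : MeasurePreserving D volume μ) {K : ℕ} (hK : 14 ≤ K) :
    NullMeasurableSet {x : E (Fin K) | RK D (sg x)} volume := by
  obtain ⟨m, rfl⟩ : ∃ m, K = m + 4 := ⟨K - 4, by omega⟩
  have hm : 10 ≤ m := by omega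
  simp only [RK_iff D hm]
  exact null_RN hm hD (fun i : Fin (m + 4) =>
    (⟨{i}, Finset.singleton_nonempty i⟩ : {A : Finset (Fin (m + 4)) // A.Nonempty}))
    fun i j h => Finset.singleton_injective (congrArg Subtype.val h)

theorem no_um' {K : ℕ} (hK : 14 ≤ K) {π : G → unitInterval} {D : unitInterval → G}
    (hi : AeIso μ volume π D) {N' : Set (E (Fin K))} (hU : UM N')
    (hae : ∀ᵐ x : E (Fin K), x ∈ N' ↔ RK D (sg x)) {n : ℕ} (hn : K + 17 ≤ n)
    (htr : ∀ x : E (Fin n), x ∉ Diag (Fin n) → ∃ y : E (Fin n), y ∉ Diag (Fin n) ∧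
      ∀ α : Fin K ↪ Fin n, RK D (sg y ∘ α) ↔ pull α x ∈ N') : False := by
  obtain ⟨m, rfl⟩ : ∃ m, K = m + 4 := ⟨K - 4, by omega⟩
  have hm : 10 ≤ m := by omega
  simp only [RK_iff D hm] at hae htr
  exact no_um hm hi hU hae (by omega) htr

/-- In every finite relational language with a predicate symbol of arity at least `14` there is a
single universal sentence, all of whose models are canonical, and a strong theon of it that agrees
almost everywhere with no universally measurable (in particular no Borel) strong theon. -/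
theorem result {S : Type} [Finite S] (k : S → ℕ) (P₀ : S) (h14 : 14 ≤ k P₀) :
    ∃ φ : (lang k).Sentence, φ.IsUniversal ∧
      (∀ (V : Type) (M : (lang k).Structure V), Models {φ} M → Canon M) ∧
      ∃ N : ∀ P, Set (E (Fin (k P))), Strong {φ} N ∧
        ∀ N' : ∀ P, Set (E (Fin (k P))), Strong {φ} N' → UM (N' P₀) →
          volume (N P₀ ∆ N' P₀) ≠ 0 := by
  obtain ⟨π, D, hi⟩ := iso_any μ (volume : Measure unitInterval)
  obtain ⟨n0, hn0⟩ := (finite_range k).bddAbove
  have hn : ∀ P, k P ≤ n0 + 17 := fun P => (hn0 ⟨P, rfl⟩).trans (Nat.le_add_right _ _)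
  let N : ∀ P, Set (E (Fin (k P))) := fun P => {x | P = P₀ ∧ RK D (sg x)}
  have hN : ∀ P, NullMeasurableSet (N P) volume := by
    intro P
    by_cases h : P = P₀
    · subst h
      simpa [N] using null_RK hi.m2 h14
    · simp [N, h]
  refine ⟨sent N (n0 + 17), sent_univ N _, fun V M h => ((models_sent N hn M).1 h).1, N,
    strong_sent hn hN, fun N' hs hU h0 => ?_⟩
  have h1 : ∀ᵐ x, x ∈ N' P₀ ↔ x ∈ N P₀ := (measure_symmDiff_eq_zero_iff.1 h0).symm.mem_iff
  refine no_um' h14 hi hU (h1.mono fun x hx => hx.trans (by simp [N]))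
    (n := n0 + 17) (Nat.add_le_add_right (hn0 ⟨P₀, rfl⟩) 17) fun x hx => ?_
  obtain ⟨y, hy, h2⟩ := transfer hn hs x hx
  refine ⟨y, hy, fun α => Iff.trans ?_ (h2 P₀ α)⟩
  rw [← sg_pull]
  simp [N]

end Pool.Agent.Results.MP_351e8f_co.OneSymbol
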